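import Pool.Agent.Q174.QC.Example

/-!
# Deterministic and quantum communication of AND-composed functions are not polynomially related

Let `f(z) = 1` iff `z ∈ {0,1}^n` has at most one coordinate `0`, and `F(x,y) = f(x ∧ y)`. Among the
inputs with exactly one zero `F` is the equality function of the positions of the zeros, so the
deterministic complexity is at least `log₂ n`; but a protocol with shared randomness, and therefore
also a quantum protocol with prior entanglement, has constant cost: Alice says whether `x` has no
zero, one zero or more zeros, and sends two random bits that depend on the position.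
-/

set_option autoImplicit false

namespace Pool.Agent.Results.MP_799357_lc.NoPolynomial

open Finset

/-- `F` has a deterministic two-party protocol with exactly `c` bits: `t` is the transcript so far,
`owner t` says who speaks (`true`: Alice), the bit sent depends on the transcript and on the input of
the speaker, and the answer is a function of the transcript. -/
def HasProtocol {X Y : Type} (F : X → Y → Bool) (c : ℕ) : Prop :=
  ∃ (owner : List Bool → Bool) (a : List Bool → X → Bool)
      (b : List Bool → Y → Bool) (out : List Bool → Bool),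
      ∀ x y, out (Nat.iterate
        (fun t : List Bool => t ++ [if owner t then a t x else b t y]) c []) = F x y

/-- a state of the three registers: Alice's register (basis `A`), the message qubit (basis `Bool`),
Bob's register (basis `B`) -/
abbrev State (A B : Type) := A → Bool → B → ℂ

/-- Alice applies a unitary to her register and the message qubit -/
def alice {A B : Type} [Fintype A] (U : Matrix (A × Bool) (A × Bool) ℂ) (s : State A B) :
    State A B :=
  fun a m b => ∑ p : A × Bool, U (a, m) p * s p.1 p.2 b

/-- Bob applies a unitary to his register and the message qubit -/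
def bob {A B : Type} [Fintype B] (V : Matrix (B × Bool) (B × Bool) ℂ) (s : State A B) :
    State A B :=
  fun a m b => ∑ p : B × Bool, V (b, m) p * s a p.2 p.1

/-- The state after `n` local operations. At the start the players share the (entangled) state `ψ`,
and the message qubit is in the state `|0⟩` and in the hands of Alice; then Alice and Bob alternately
apply a unitary to their own register and the message qubit, which is sent to the other player
between two consecutive operations. -/
def run {A B : Type} [Fintype A] [Fintype B] (ψ : A → B → ℂ)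
    (U : ℕ → Matrix (A × Bool) (A × Bool) ℂ) (V : ℕ → Matrix (B × Bool) (B × Bool) ℂ) :
    ℕ → State A B
  | 0 => fun a m b => if m then 0 else ψ a b
  | n + 1 => if n % 2 = 0 then alice (U n) (run ψ U V n) else bob (V n) (run ψ U V n)

/-- `F` has a quantum protocol with prior entanglement in which `q` qubits are exchanged, with error
at most `1/3`: the shared state `ψ` is an arbitrary unit vector, the local operations are arbitrary
unitaries which depend on the input of the player, there are `q + 1` local operations and the message
qubit is sent `q` times between them, and then the player who holds it measures his register and the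
qubit and computes the output from his input and the result. -/
def HasQuantumProtocol {X Y : Type} (F : X → Y → Bool) (q : ℕ) : Prop :=
  ∃ (A B : Type) (_ : Fintype A) (_ : Fintype B) (_ : DecidableEq A) (_ : DecidableEq B)
    (ψ : A → B → ℂ) (U : X → ℕ → Matrix (A × Bool) (A × Bool) ℂ)
    (V : Y → ℕ → Matrix (B × Bool) (B × Bool) ℂ)
    (outA : X → A → Bool → Bool) (outB : Y → B → Bool → Bool),
    (∑ a, ∑ b, ‖ψ a b‖ ^ 2 = 1) ∧
    (∀ x i, U x i ∈ Matrix.unitaryGroup (A × Bool) ℂ) ∧
    (∀ y i, V y i ∈ Matrix.unitaryGroup (B × Bool) ℂ) ∧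
    ∀ x y,
      let p : ℝ := ∑ a : A, ∑ m : Bool, ∑ b : B,
        if (if q % 2 = 0 then outA x a m else outB y b m) then
          ‖run ψ (U x) (V y) (q + 1) a m b‖ ^ 2 else 0
      (F x y = true → 2 / 3 ≤ p) ∧ (F x y = false → p ≤ 1 / 3)

/-- the AND-composed function `f(x ∧ y)` -/
def andComp {n : ℕ} (f : (Fin n → Bool) → Bool) : (Fin n → Bool) → (Fin n → Bool) → Bool :=
  fun x y => f fun i => x i && y i

/-- at most one coordinate of `z` is `0` -/
def atMostOneZero (n : ℕ) : (Fin n → Bool) → Bool :=
  fun z => decide ((univ.filter fun i => z i = false).card ≤ 1)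

lemma run_eq {A B : Type} [Fintype A] [Fintype B] (ψ : A → B → ℂ)
    (U : ℕ → Matrix (A × Bool) (A × Bool) ℂ) (V : ℕ → Matrix (B × Bool) (B × Bool) ℂ) (n : ℕ) :
    run ψ U V n = Pool.Agent.Q174.QC.run ψ U V n := by
  induction n with
  | zero => rfl
  | succ n ih =>
    rw [run, Pool.Agent.Q174.QC.run, ih]
    rfl

lemma quantum_upper (n : ℕ) : HasQuantumProtocol (andComp (atMostOneZero n)) 7 := by
  classical
  refine ⟨(Fin n → Bool) × (Fin n → Bool), ((Fin n → Bool) × (Fin n → Bool)) × (Fin 4 → Bool),
    inferInstance, inferInstance, inferInstance, inferInstance,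
    Pool.Agent.Q174.QC.psi0 _ 4, fun x => Pool.Agent.Q174.QC.opA fun r =>
      Pool.Agent.Q174.QC.msgX x r, fun _ => Pool.Agent.Q174.QC.opB, fun _ _ _ => false,
    fun y b _ => Pool.Agent.Q174.QC.outY y b.1 b.2, Pool.Agent.Q174.QC.psi0_unit,
    fun x i => Pool.Agent.Q174.QC.opA_unitary _ i, fun y i => Pool.Agent.Q174.QC.opB_unitary i, ?_⟩
  intro x y p
  have hp : p = ((univ.filter fun r => Pool.Agent.Q174.QC.outY y r
      (Pool.Agent.Q174.QC.msgX x r) = true).card : ℝ) /
      Fintype.card ((Fin n → Bool) × (Fin n → Bool)) := by
    rw [← Pool.Agent.Q174.QC.accept_eq (fun r => Pool.Agent.Q174.QC.msgX x r)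
      (fun r m => Pool.Agent.Q174.QC.outY y r m)]
    simp only [p, run_eq]
    rfl
  have hpos : (0 : ℝ) < Fintype.card ((Fin n → Bool) × (Fin n → Bool)) := by
    exact_mod_cast Fintype.card_pos
  constructor
  · intro hF
    have h1 : Pool.Agent.Q174.QC.zeros (fun i => x i && y i) ≤ 1 := of_decide_eq_true hF
    have h2 : (univ.filter fun r => Pool.Agent.Q174.QC.outY y r
        (Pool.Agent.Q174.QC.msgX x r) = true) = univ := by
      rw [Finset.filter_true_of_mem]
      intro r _
      exact Pool.Agent.Q174.QC.accept_one x y h1 r
    rw [hp, h2, card_univ, div_self hpos.ne']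
    norm_num
  · intro hF
    have h1 : 2 ≤ Pool.Agent.Q174.QC.zeros (fun i => x i && y i) := by
      have : ¬ Pool.Agent.Q174.QC.zeros (fun i => x i && y i) ≤ 1 := of_decide_eq_false hF
      omega
    have h2 := Pool.Agent.Q174.QC.accept_zero x y h1
    have h3 : (4 : ℝ) * ((univ.filter fun r => Pool.Agent.Q174.QC.outY y r
        (Pool.Agent.Q174.QC.msgX x r) = true).card : ℝ) ≤
        Fintype.card ((Fin n → Bool) × (Fin n → Bool)) := by
      exact_mod_cast h2
    rw [hp, div_le_div_iff₀ hpos (by norm_num)]
    nlinarith [Nat.cast_nonneg (α := ℝ) (univ.filter fun r => Pool.Agent.Q174.QC.outY y r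
        (Pool.Agent.Q174.QC.msgX x r) = true).card]

lemma classical_lower (n c : ℕ) (h : HasProtocol (andComp (atMostOneZero n)) c) : n ≤ 2 ^ c := by
  classical
  obtain ⟨owner, a, b, out, h⟩ := h
  change ∀ x y, out ((Pool.Agent.Q174.QC.stp owner a b x y)^[c] []) = _ at h
  set v : Fin n → (Fin n → Bool) := fun i j => decide (j ≠ i) with hv
  have hval : ∀ i j, andComp (atMostOneZero n) (v i) (v j) = decide (i = j) := by
    intro i j
    have h1 : (univ.filter fun l => (v i l && v j l) = false) = {i, j} := by
      ext l
      simp only [hv, mem_filter, mem_univ, true_and, mem_insert, mem_singleton]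
      by_cases h1 : l = i <;> by_cases h2 : l = j <;> simp [h1, h2]
    unfold andComp atMostOneZero
    rw [h1]
    by_cases hij : i = j
    · subst hij
      simp
    · rw [card_pair hij]
      simp [hij]
  let g : Fin n → List.Vector Bool c := fun i =>
    ⟨(Pool.Agent.Q174.QC.stp owner a b (v i) (v i))^[c] [],
      Pool.Agent.Q174.QC.iter_length owner a b _ _ c⟩
  have hinj : Function.Injective g := by
    intro i j hij
    have h1 : (Pool.Agent.Q174.QC.stp owner a b (v i) (v i))^[c] [] =
        (Pool.Agent.Q174.QC.stp owner a b (v j) (v j))^[c] [] := congrArg Subtype.val hij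
    have h2 := Pool.Agent.Q174.QC.rectangle owner a b (v i) (v j) (v i) (v j) c h1
    have h3 := h (v i) (v j)
    rw [h2, h (v i) (v i), hval, hval] at h3
    simpa using h3
  have h4 := Fintype.card_le_of_injective _ hinj
  rw [Fintype.card_fin] at h4
  have h5 : Fintype.card (List.Vector Bool c) = 2 ^ c := by
    rw [card_vector, Fintype.card_bool]
  omega

theorem result :
    -- constant quantum complexity with prior entanglement
    (∀ n, HasQuantumProtocol (andComp (atMostOneZero n)) 7) ∧
    -- unbounded deterministic complexity
    (∀ n c, HasProtocol (andComp (atMostOneZero n)) c → n ≤ 2 ^ c) ∧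
    -- no function `P` (in particular no polynomial) bounds `D` by `P(Q*)`
    (∀ P : ℕ → ℝ, ∃ (n : ℕ) (f : (Fin n → Bool) → Bool), HasQuantumProtocol (andComp f) 7 ∧
      ∀ q ≤ 7, ∀ c, HasProtocol (andComp f) c → P q < c) := by
  refine ⟨quantum_upper, classical_lower, ?_⟩
  intro P
  obtain ⟨M, hM⟩ : ∃ M : ℕ, ∀ q ≤ 7, P q ≤ M := by
    refine ⟨∑ q ∈ range 8, ⌈|P q|⌉₊, fun q hq => ?_⟩
    calc P q ≤ |P q| := le_abs_self _
      _ ≤ (⌈|P q|⌉₊ : ℝ) := Nat.le_ceil _
      _ ≤ ((∑ q ∈ range 8, ⌈|P q|⌉₊ : ℕ) : ℝ) := by
          exact_mod_cast Finset.single_le_sum (f := fun q => ⌈|P q|⌉₊)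
            (fun i _ => Nat.zero_le _) (mem_range.mpr (by omega))
  refine ⟨2 ^ M + 1, atMostOneZero _, quantum_upper _, fun q hq c hc => ?_⟩
  have h1 := classical_lower _ c hc
  have h2 : M < c := by
    by_contra hcon
    push Not at hcon
    have := Nat.pow_le_pow_right (show 0 < 2 by norm_num) hcon
    omega
  calc P q ≤ M := hM q hq
    _ < c := by exact_mod_cast h2

end Pool.Agent.Results.MP_799357_lc.NoPolynomial
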